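import Pool.Agent.W586.SK.Stm2
import Pool.Agent.H888R2.KB.N1
import Pool.Agent.H212R2.KLS.G2

/-!
# SX-MAINC: bounded functions, general support (adapted from H888R2/KB/N2)
-/

set_option autoImplicit false

namespace Pool.Agent.W668.SX

open MeasureTheory Set Filter Pool.Agent.W586.SX
open scoped ENNReal InnerProductSpace Topology
open Pool.Agent.H212R2.KLS (mu Bdd)
open Pool.Agent.H888R2.KT (LC)
open Pool.Agent.H888R2.KB (nash_lip)
open Pool.Agent.W586.SK (E)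

theorem mainc (hbas : S_BAS) : S_MAINC := by
  intro C hC hcore n ρ hn hρ h1 s hs hmom f hf hfb
  have hprob : IsProbabilityMeasure (mu ρ) := ⟨h1⟩
  by_cases hI : ∫⁻ x, ENNReal.ofReal (‖fderiv ℝ f x‖ ^ 2) ∂(mu ρ) = ⊤
  · rw [hI, ENNReal.mul_top (by
      rw [Ne, ENNReal.ofReal_eq_zero, not_le]
      positivity)]
    exact le_top
  obtain ⟨I, hIdef⟩ : ∃ I : ℝ, I = (∫⁻ x, ENNReal.ofReal (‖fderiv ℝ f x‖ ^ 2) ∂(mu ρ)).toReal :=
    ⟨_, rfl⟩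
  have hI0 : 0 ≤ I := by rw [hIdef]; exact ENNReal.toReal_nonneg
  have hgrad_meas : Continuous fun x => ‖fderiv ℝ f x‖ ^ 2 :=
    ((hf.continuous_fderiv (by norm_num)).norm).pow 2
  have hfL : MemLp f 2 (mu ρ) :=
    MemLp.of_bound hf.continuous.aestronglyMeasurable 1 (Eventually.of_forall fun x => by
      rw [Real.norm_eq_abs]; exact hfb x)
  have hf2 : Integrable (fun x => f x ^ 2) (mu ρ) := hfL.integrable_sq
  have hf1 : Integrable f (mu ρ) := hfL.integrable (by norm_num)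
  have key : ∀ᶠ k : ℕ in atTop,
      (((mu ρ).real {x : E n | ‖x‖ ≤ k})⁻¹ *
        (∫ x in {x : E n | ‖x‖ ≤ k}, f x ^ 2 ∂(mu ρ)) -
        (((mu ρ).real {x : E n | ‖x‖ ≤ k})⁻¹ *
          ∫ x in {x : E n | ‖x‖ ≤ k}, f x ∂(mu ρ)) ^ 2) ^ 2 ≤
      8 * (C *
        (s * ((mu ρ).real {x : E n | ‖x‖ ≤ k})⁻¹)) *
        (((mu ρ).real {x : E n | ‖x‖ ≤ k})⁻¹ * I) := by
    have hev : ∀ᶠ k : ℕ in atTop,
        0 < (mu ρ).real {x : E n | ‖x‖ ≤ k} :=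
      (Pool.Agent.H212R2.KLS.g2_mass (mu ρ)).eventually (lt_mem_nhds one_pos)
    filter_upwards [hev] with k hk
    obtain ⟨B, hBdef⟩ : ∃ B : Set (E n),
      B = {x | ‖x‖ ≤ k} := ⟨_, rfl⟩
    have hBm : MeasurableSet B := by
      rw [hBdef]
      exact measurableSet_le measurable_norm measurable_const
    rw [← hBdef] at hk ⊢
    obtain ⟨M, hM⟩ : ∃ M : ℝ, M = (mu ρ).real B := ⟨_, rfl⟩
    rw [← hM] at hk ⊢
    have hMi : 0 ≤ M⁻¹ := (inv_pos.2 hk).le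
    have hd : Sx (fun x => M⁻¹ * B.indicator ρ x) := by
      have hb1 : Sx (B.indicator ρ) := by
        rw [hBdef]
        exact (hbas ρ hρ).2.1 k
      exact (hbas _ hb1).2.2.1 _ hMi
    have hb : Bdd (fun x => M⁻¹ * B.indicator ρ x) := by
      refine ⟨k, fun x hx => ?_⟩
      show M⁻¹ * B.indicator ρ x = 0
      rw [indicator_of_notMem, mul_zero]
      rw [hBdef]
      exact not_le.2 hx
    have hmu := Pool.Agent.H212R2.KLS.g2_mu ρ hρ.nonneg hρ.meas B hBm M⁻¹ hMi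
    have hmass : mu (fun x => M⁻¹ * B.indicator ρ x) univ = 1 := by
      rw [hmu, Measure.smul_apply, Measure.restrict_apply_univ, smul_eq_mul]
      have h2 : mu ρ B = ENNReal.ofReal M := by
        rw [hM, Measure.real, ENNReal.ofReal_toReal (measure_ne_top _ _)]
      rw [h2, ← ENNReal.ofReal_mul hMi, inv_mul_cancel₀ hk.ne', ENNReal.ofReal_one]
    have hlc : LC (fun x => M⁻¹ * B.indicator ρ x) :=
      ⟨hd.nonneg, hd.meas, hd.logc, hb, by rw [hmass]; exact ENNReal.one_ne_top, fun h => by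
        rw [h] at hmass; simp at hmass⟩
    have hint : ∀ g : E n → ℝ,
        ∫ x, g x ∂(mu (fun x => M⁻¹ * B.indicator ρ x)) = M⁻¹ * ∫ x in B, g x ∂(mu ρ) := by
      intro g
      rw [hmu, integral_smul_measure, ENNReal.toReal_ofReal hMi, smul_eq_mul]
    -- a nonnegative function has a smaller integral over `B`
    have hle : ∀ g : E n → ℝ, Continuous g →
        (∀ x, 0 ≤ g x) → ∀ a : ℝ, 0 ≤ a →
        ∫⁻ x, ENNReal.ofReal (g x) ∂(mu ρ) ≤ ENNReal.ofReal a → ∫ x in B, g x ∂(mu ρ) ≤ a := by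
      intro g hg hg0 a ha hga
      rw [integral_eq_lintegral_of_nonneg_ae (Eventually.of_forall hg0)
        hg.aestronglyMeasurable]
      apply ENNReal.toReal_le_of_le_ofReal ha
      exact le_trans (setLIntegral_le_lintegral _ _) hga
    have hmom' : ∀ θ : E n,
        ∫ x, ⟪θ, x⟫_ℝ ^ 2 ∂(mu (fun x => M⁻¹ * B.indicator ρ x)) ≤ (s * M⁻¹) * ‖θ‖ ^ 2 := by
      intro θ
      rw [hint]
      have h2 := hle (fun x => ⟪θ, x⟫_ℝ ^ 2) (by fun_prop) (fun x => sq_nonneg _) (s * ‖θ‖ ^ 2)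
        (by positivity) (hmom θ)
      calc M⁻¹ * ∫ x in B, ⟪θ, x⟫_ℝ ^ 2 ∂(mu ρ) ≤ M⁻¹ * (s * ‖θ‖ ^ 2) :=
            mul_le_mul_of_nonneg_left h2 hMi
        _ = (s * M⁻¹) * ‖θ‖ ^ 2 := by ring
    have h3 := nash_lip hlc hmass (C * (s * M⁻¹)) (by
      have := inv_pos.2 hk
      positivity) (fun g hg hg1 => hcore _ hn hd hb hmass (s * M⁻¹)
        (mul_pos hs (inv_pos.2 hk)) hmom' g hg hg1) f hf hfb
    rw [hint, hint, hint] at h3
    refine h3.trans ?_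
    have h4 : ∫ x in B, ‖fderiv ℝ f x‖ ^ 2 ∂(mu ρ) ≤ I := by
      apply hle _ hgrad_meas (fun x => sq_nonneg _) I hI0
      rw [hIdef, ENNReal.ofReal_toReal hI]
    have h5 : 0 ≤ 8 * (C * (s * M⁻¹)) := by positivity
    exact mul_le_mul_of_nonneg_left (mul_le_mul_of_nonneg_left h4 hMi) h5
  have hM1 : Tendsto (fun k : ℕ =>
      ((mu ρ).real {x : E n | ‖x‖ ≤ k})⁻¹)
      atTop (𝓝 1) := by
    have := (Pool.Agent.H212R2.KLS.g2_mass (mu ρ)).inv₀ one_ne_zero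
    rwa [inv_one] at this
  have hL : Tendsto (fun k : ℕ =>
      (((mu ρ).real {x : E n | ‖x‖ ≤ k})⁻¹ *
        (∫ x in {x : E n | ‖x‖ ≤ k}, f x ^ 2 ∂(mu ρ)) -
        (((mu ρ).real {x : E n | ‖x‖ ≤ k})⁻¹ *
          ∫ x in {x : E n | ‖x‖ ≤ k}, f x ∂(mu ρ)) ^ 2) ^ 2)
      atTop (𝓝 ((1 * (∫ x, f x ^ 2 ∂(mu ρ)) - (1 * ∫ x, f x ∂(mu ρ)) ^ 2) ^ 2)) :=
    ((hM1.mul (Pool.Agent.H212R2.KLS.g2_lim (mu ρ) _ hf2)).sub
      ((hM1.mul (Pool.Agent.H212R2.KLS.g2_lim (mu ρ) _ hf1)).pow 2)).pow 2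
  have hR : Tendsto (fun k : ℕ =>
        8 * (C *
          (s * ((mu ρ).real {x : E n | ‖x‖ ≤ k})⁻¹)) *
        (((mu ρ).real {x : E n | ‖x‖ ≤ k})⁻¹ * I))
      atTop (𝓝 (8 * (C * (s * 1)) * (1 * I))) :=
    (((hM1.const_mul s).const_mul C).const_mul 8).mul (hM1.mul_const I)
  have hfin := le_of_tendsto_of_tendsto hL hR key
  have hvar : ∫ x, (f x - ∫ y, f y ∂(mu ρ)) ^ 2 ∂(mu ρ) =
      ∫ x, f x ^ 2 ∂(mu ρ) - (∫ x, f x ∂(mu ρ)) ^ 2 := by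
    obtain ⟨a, ha⟩ : ∃ a : ℝ, a = ∫ y, f y ∂(mu ρ) := ⟨_, rfl⟩
    rw [← ha]
    have h2 : ∀ x, (f x - a) ^ 2 = (f x ^ 2 - 2 * a * f x) + a ^ 2 := fun x => by ring
    simp_rw [h2]
    have h3 : Integrable (fun x => 2 * a * f x) (mu ρ) := hf1.const_mul _
    have h4 : Integrable (fun x => f x ^ 2 - 2 * a * f x) (mu ρ) := hf2.sub h3
    rw [integral_add h4 (integrable_const _), integral_sub hf2 h3, integral_const_mul, ← ha]
    simp
    ring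
  rw [hvar]
  have h6 : (∫ x, f x ^ 2 ∂(mu ρ) - (∫ x, f x ∂(mu ρ)) ^ 2) ^ 2 ≤ 8 * C * s * I := by
    have : 8 * (C * (s * 1)) * (1 * I) = 8 * C * s * I := by ring
    rw [this] at hfin
    simpa using hfin
  calc ENNReal.ofReal ((∫ x, f x ^ 2 ∂(mu ρ) - (∫ x, f x ∂(mu ρ)) ^ 2) ^ 2)
      ≤ ENNReal.ofReal (8 * C * s * I) := ENNReal.ofReal_le_ofReal h6
    _ = ENNReal.ofReal (8 * C * s) *
        ∫⁻ x, ENNReal.ofReal (‖fderiv ℝ f x‖ ^ 2) ∂(mu ρ) := by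
      rw [ENNReal.ofReal_mul (by positivity), hIdef, ENNReal.ofReal_toReal hI]

end Pool.Agent.W668.SX
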